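import Pool.Agent.helper47.MSW.SpecA

set_option autoImplicit false

/-! # MSW (MP_a87880_co), row IND -/

namespace Pool.Agent.MSW

open Equiv Finset Function MeasureTheory Pool.Agent.helper48.PP
open Pool.Agent.DSW (Pr Has GP wt)
open scoped ENNReal Classical

noncomputable section

/-- extension by `false` -/
def IND_ext (F : Finset Pt) (f : F → Bool) : Om := fun c => if h : c ∈ F then f ⟨c, h⟩ else false

theorem IND_pre {F : Finset Pt} {A : Set Om} (hA : Dep F A) :
    (fun (ω : Om) (c : F) => ω c) ⁻¹' {f | IND_ext F f ∈ A} = A := by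
  ext ω
  show IND_ext F (fun c => ω c) ∈ A ↔ ω ∈ A
  refine hA _ _ fun c hc => ?_
  unfold IND_ext
  rw [dif_pos hc]

theorem IND (_hMUM : MUM_stmt) : IND_stmt := by
  intro p F G A B _ _ hA hB hFG
  have h1 : ProbabilityTheory.iIndepFun (fun (i : Pt) (ω : Om) => ω i) (Pm p) :=
    ProbabilityTheory.iIndepFun_infinitePi (P := fun _ : Pt => bern p)
      (X := fun _ (b : Bool) => b) (fun _ => measurable_id)
  have h2 := ProbabilityTheory.iIndepFun.indepFun_finset F G hFG h1 (fun i => measurable_pi_apply i)
  have h3 := h2.measure_inter_preimage_eq_mul {f : F → Bool | IND_ext F f ∈ A}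
    {f : G → Bool | IND_ext G f ∈ B} (Set.toFinite _).measurableSet (Set.toFinite _).measurableSet
  rw [IND_pre hA, IND_pre hB] at h3
  exact h3

end

end Pool.Agent.MSW
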