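import Pool.Agent.helper47.MSW.SpecA
import Pool.Agent.helper6.DSW.PRL

set_option autoImplicit false

/-! # MSW (MP_a87880_co), row MUM -/

namespace Pool.Agent.MSW

open Equiv Finset Function MeasureTheory Pool.Agent.helper48.PP
open Pool.Agent.DSW (Pr Has GP wt)
open scoped ENNReal Classical

noncomputable section

/-- extension by `false` -/
def MUM_ext (F : Finset Pt) (f : F → Bool) : Om := fun c => if h : c ∈ F then f ⟨c, h⟩ else false

/-- the set of the restrictions -/
def MUM_B (F : Finset Pt) (A : Set Om) : Set (F → Bool) := {f | MUM_ext F f ∈ A}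

theorem MUM_pre {F : Finset Pt} {A : Set Om} (hA : Dep F A) : F.restrict ⁻¹' (MUM_B F A) = A := by
  ext ω
  show MUM_ext F (F.restrict ω) ∈ A ↔ ω ∈ A
  refine hA _ _ fun c hc => ?_
  unfold MUM_ext
  rw [dif_pos hc]
  rfl

theorem MUM_Bmeas (F : Finset Pt) (A : Set Om) : MeasurableSet (MUM_B F A) :=
  (Set.toFinite _).measurableSet

theorem MUM_restrict_meas (F : Finset Pt) : Measurable (F.restrict : Om → (F → Bool)) :=
  Finset.measurable_restrict F

theorem MUM_meas {F : Finset Pt} {A : Set Om} (hA : Dep F A) : MeasurableSet A := by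
  rw [← MUM_pre hA]
  exact MUM_restrict_meas F (MUM_Bmeas F A)

theorem MUM_bern {p : ℝ} (h0 : 0 ≤ p) (h1 : p ≤ 1) (b : Bool) :
    bern p {b} = if b = true then ENNReal.ofReal p else ENNReal.ofReal (1 - p) := by
  unfold bern
  rw [clip_eq h0 h1]
  cases b <;> simp

theorem MUM_term {p : ℝ} (h0 : 0 ≤ p) (h1 : p ≤ 1) (F S : Finset Pt) (hS : S ⊆ F) :
    ∏ c : F, bern p {ind S c} = ENNReal.ofReal (p ^ S.card * (1 - p) ^ (F.card - S.card)) := by
  have e1 : ∏ c : F, bern p {ind S c} =
      ∏ c ∈ F, (if c ∈ S then ENNReal.ofReal p else ENNReal.ofReal (1 - p)) := by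
    rw [← Finset.prod_coe_sort F fun c => (if c ∈ S then ENNReal.ofReal p else ENNReal.ofReal (1 - p))]
    refine Finset.prod_congr rfl fun c _ => ?_
    rw [MUM_bern h0 h1]
    unfold ind
    by_cases hc : (c : Pt) ∈ S
    · rw [if_pos hc, if_pos (by simpa using hc)]
    · rw [if_neg hc, if_neg (by simpa using hc)]
  rw [e1, Finset.prod_ite, Finset.prod_const, Finset.prod_const]
  have e2 : (F.filter fun c => c ∈ S) = S := by
    ext c
    rw [Finset.mem_filter]
    exact ⟨fun h => h.2, fun h => ⟨hS h, h⟩⟩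
  have e3 : (F.filter fun c => ¬ c ∈ S) = F \ S := by
    ext c
    rw [Finset.mem_filter, Finset.mem_sdiff]
  rw [e2, e3, Finset.card_sdiff_of_subset hS, ENNReal.ofReal_mul (pow_nonneg h0 _),
    ENNReal.ofReal_pow h0, ENNReal.ofReal_pow (by linarith)]

theorem MUM_Pm {p : ℝ} {F : Finset Pt} {A : Set Om} (h0 : 0 ≤ p) (h1 : p ≤ 1) (hA : Dep F A) :
    Pm p A = ENNReal.ofReal (Pr F p fun S => ind S ∈ A) := by
  have e0 : Pm p A = (Measure.pi fun _ : F => bern p) (MUM_B F A) := by
    have h2 : (Pm p).map F.restrict (MUM_B F A) = Pm p (F.restrict ⁻¹' (MUM_B F A)) :=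
      Measure.map_apply (MUM_restrict_meas F) (MUM_Bmeas F A)
    rw [MUM_pre hA] at h2
    rw [← h2]
    unfold Pm
    rw [Measure.infinitePi_map_restrict]
  have e1 : ((Finset.univ.filter fun f : F → Bool => MUM_ext F f ∈ A : Finset (F → Bool)) :
      Set (F → Bool)) = MUM_B F A := by
    ext f
    rw [Finset.mem_coe, Finset.mem_filter]
    exact ⟨fun h => h.2, fun h => ⟨Finset.mem_univ _, h⟩⟩
  rw [e0, ← e1, ← sum_measure_singleton, Pool.Agent.DSW.Pr, ENNReal.ofReal_sum_of_nonneg
    fun S _ => mul_nonneg (pow_nonneg h0 _) (pow_nonneg (by linarith) _)]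
  refine Finset.sum_nbij' (fun f => F.filter fun c => MUM_ext F f c = true)
    (fun S => fun c : F => ind S c) ?_ ?_ ?_ ?_ ?_
  · intro f hf
    rw [Finset.mem_filter] at hf ⊢
    refine ⟨Finset.mem_powerset.2 (Finset.filter_subset _ _), ?_⟩
    refine (hA _ _ fun c hc => ?_).1 hf.2
    unfold ind
    by_cases h : MUM_ext F f c = true
    · rw [h]
      symm
      exact decide_eq_true (Finset.mem_filter.2 ⟨hc, h⟩)
    · rw [Bool.not_eq_true] at h
      rw [h]
      symm
      refine decide_eq_false fun h2 => ?_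
      have := (Finset.mem_filter.1 h2).2
      rw [h] at this
      exact Bool.false_ne_true this
  · intro S hS
    rw [Finset.mem_filter] at hS ⊢
    refine ⟨Finset.mem_univ _, ?_⟩
    refine (hA _ _ fun c hc => ?_).1 hS.2
    unfold MUM_ext
    rw [dif_pos hc]
  · intro f hf
    funext c
    show ind (F.filter fun c => MUM_ext F f c = true) c = f c
    have hc : MUM_ext F f c = f c := by
      unfold MUM_ext
      rw [dif_pos c.2]
    unfold ind
    by_cases h : f c = true
    · rw [h]
      exact decide_eq_true (Finset.mem_filter.2 ⟨c.2, by rw [hc]; exact h⟩)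
    · rw [Bool.not_eq_true] at h
      rw [h]
      refine decide_eq_false fun h2 => ?_
      have := (Finset.mem_filter.1 h2).2
      rw [hc, h] at this
      exact Bool.false_ne_true this
  · intro S hS
    rw [Finset.mem_filter, Finset.mem_powerset] at hS
    show (F.filter fun c => MUM_ext F (fun c : F => ind S c) c = true) = S
    ext c
    rw [Finset.mem_filter]
    constructor
    · rintro ⟨hc, h⟩
      unfold MUM_ext at h
      rw [dif_pos hc] at h
      exact of_decide_eq_true h
    · intro h
      refine ⟨hS.1 h, ?_⟩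
      unfold MUM_ext
      rw [dif_pos (hS.1 h)]
      exact decide_eq_true h
  · intro f hf
    rw [Measure.pi_singleton, ← MUM_term h0 h1 F _ (Finset.filter_subset _ _)]
    refine Finset.prod_congr rfl fun c _ => ?_
    congr 2
    show f c = ind (F.filter fun c => MUM_ext F f c = true) c
    have hc : MUM_ext F f c = f c := by
      unfold MUM_ext
      rw [dif_pos c.2]
    unfold ind
    by_cases h : f c = true
    · rw [h]
      exact (decide_eq_true (Finset.mem_filter.2 ⟨c.2, by rw [hc]; exact h⟩)).symm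
    · rw [Bool.not_eq_true] at h
      rw [h]
      refine (decide_eq_false fun h2 => ?_).symm
      have := (Finset.mem_filter.1 h2).2
      rw [hc, h] at this
      exact Bool.false_ne_true this

theorem MUM : MUM_stmt := fun _ _ _ h0 h1 hA => ⟨MUM_meas hA, MUM_Pm h0 h1 hA⟩

end

end Pool.Agent.MSW
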