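import Pool.Agent.helper47.MSW.SpecA
import Pool.Agent.helper6.DSW.PRL

set_option autoImplicit false

/-! # MSW (MP_a87880_co), row ONE -/

namespace Pool.Agent.MSW

open Equiv Finset Function MeasureTheory Pool.Agent.helper48.PP
open Pool.Agent.DSW (Pr Has GP wt)
open scoped ENNReal Classical

noncomputable section

theorem ONE (hMUM : MUM_stmt) : ONE_stmt := by
  intro p F h0 h1
  have hD : Dep F {ω : Om | ∀ c ∈ F, ω c = true} := by
    intro ω ω' H
    constructor
    · intro h c hc
      rw [← H c hc]
      exact h c hc
    · intro h c hc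
      rw [H c hc]
      exact h c hc
  rw [(hMUM p F _ h0 h1 hD).2]
  have e1 : (fun S : Finset Pt => ind S ∈ {ω : Om | ∀ c ∈ F, ω c = true}) = fun S => F ⊆ S := by
    funext S
    refine propext ?_
    constructor
    · intro h c hc
      exact of_decide_eq_true (h c hc)
    · intro h c hc
      exact decide_eq_true (h hc)
  rw [e1, Pool.Agent.DSW.PRL_four F p F (Finset.Subset.refl F), ENNReal.ofReal_pow h0]

end

end Pool.Agent.MSW
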