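import Pool.Agent.helper47.MSW.SpecA
import Pool.Agent.helper6.DSW.PRL

set_option autoImplicit false

/-! # MSW (MP_a87880_co), row TRN -/

namespace Pool.Agent.MSW

open Equiv Finset Function MeasureTheory Pool.Agent.helper48.PP
open Pool.Agent.DSW (Pr Has GP wt)
open scoped ENNReal Classical

noncomputable section

theorem TRN_Pr_congr (F : Finset Pt) (p : ℝ) (A B : Finset Pt → Prop)
    (h : ∀ S ⊆ F, (A S ↔ B S)) : Pr F p A = Pr F p B := by
  rw [Pool.Agent.DSW.PRL_ite, Pool.Agent.DSW.PRL_ite]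
  refine Finset.sum_congr rfl fun S hS => ?_
  by_cases hA : A S
  · rw [if_pos hA, if_pos ((h S (Finset.mem_powerset.1 hS)).1 hA)]
  · rw [if_neg hA, if_neg fun hB => hA ((h S (Finset.mem_powerset.1 hS)).2 hB)]

theorem TRN (hMUM : MUM_stmt) : TRN_stmt := by
  intro p F A f h0 h1 hA hf
  have hD : Dep (F.image f) {ω : Om | (fun c => ω (f c)) ∈ A} := by
    intro ω ω' H
    exact hA _ _ fun c hc => H _ (Finset.mem_image_of_mem f hc)
  have h5 := Pool.Agent.DSW.PRL_five F p f hf
    (fun S : Finset Pt => ind S ∈ {ω : Om | (fun c => ω (f c)) ∈ A})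
  have e1 : ∀ S : Finset Pt, @Finset.image _ _ (fun a b => Classical.propDecidable (a = b)) f S =
      S.image f := by
    intro S
    exact congrArg (fun d => @Finset.image _ _ d f S) (Subsingleton.elim _ _)
  rw [e1] at h5
  rw [(hMUM p (F.image f) _ h0 h1 hD).2, (hMUM p F A h0 h1 hA).2, h5]
  congr 1
  refine TRN_Pr_congr F p _ _ fun S hS => ?_
  refine hA _ _ fun c hc => ?_
  show ind (@Finset.image _ _ (fun a b => Classical.propDecidable (a = b)) f S) (f c) = ind S c
  rw [e1]
  unfold ind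
  by_cases h : c ∈ S
  · rw [decide_eq_true h, decide_eq_true (Finset.mem_image_of_mem f h)]
  · rw [decide_eq_false h]
    refine decide_eq_false fun h2 => ?_
    obtain ⟨c', hc', he⟩ := Finset.mem_image.1 h2
    rw [hf (hS hc') hc he] at hc'
    exact h hc'

end

end Pool.Agent.MSW
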